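import Pool.Agent.H14R3.KK.Defs
import Pool.Agent.H14R3.KK.S.EUPP
import Pool.Agent.H14R3.KK.S.ASYM

/-! Task EUP of project KK (MP_d47e08_pr). -/

set_option autoImplicit false
open MeasureTheory ProbabilityTheory Filter Topology

namespace KK14

theorem EUP (q l : ℕ) (hq : 1 ≤ q) (hl : q ≤ l) :
    ∀ᶠ n : ℕ in atTop, Elm n (2 * q) l 0 ≤
      200 * √((l.choose q : ℝ) * l / (q * q.factorial)) * √((n : ℝ) ^ q) := by
  filter_upwards [ASYM q l hq hl, eventually_ge_atTop l] with n h1 h2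
  obtain ⟨p, hp, h3⟩ := h1
  have h4 := (EUPP n q l p hq hl h2 hp).trans h3
  exact le_of_pow_le_pow_left₀ (by omega) (by positivity) h4

end KK14
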